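import Pool.Agent.Helper17.IAN.StN

set_option autoImplicit false

namespace Pool.Agent.Helper16.IAN

open Finset Pool.Agent.Helper93.IA Pool.Agent.Helper17.IAN

/-- PRD: expectation of a product of functions of the coordinates. -/
theorem hPRD : StPRD := by
  intro ι _ _ κ _ w
  have h1 : ∀ g : ∀ i, κ i → ℝ, Ex w (fun σ => ∏ i, g i (σ i)) = ∏ i, ∑ u, w i u * g i u := by
    intro g
    unfold Ex
    rw [Finset.prod_univ_sum, Fintype.piFinset_univ]
    refine Finset.sum_congr rfl fun σ _ => ?_
    rw [Finset.prod_mul_distrib]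
  refine ⟨h1, fun h => ?_⟩
  have h2 := h1 fun _ _ => 1
  simp only [Finset.prod_const_one, mul_one] at h2
  rw [h2, Finset.prod_congr rfl fun i _ => h i, Finset.prod_const_one]

end Pool.Agent.Helper16.IAN
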